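import Pool.Agent.LibFG33.Defs

/-!
Linear statistics of the spectrum of a metric of negative curvature with arbitrary (smooth or sharp) test
functions, in the mean over `[0, T]`: the definitions of the final statement.
-/

open MeasureTheory Set Filter Topology BGS

namespace FE35

/-- Test functions: real valued, measurable and rapidly decreasing (for instance all Schwartz functions, and
all bounded measurable functions with compact support, such as the indicator functions of intervals). -/
structure IsTest (f : ℝ → ℝ) : Prop where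
  meas : Measurable f
  dec : ∀ N : ℕ, ∃ B : ℝ, ∀ y, |f y| ≤ B / (1 + |y|) ^ N

/-- The Fourier transform `f^ (ξ) = ∫ f (y) e ^ {-i ξ y} dy`. -/
noncomputable def four (f : ℝ → ℝ) (ξ : ℝ) : ℂ :=
  ∫ y, (f y : ℂ) * Complex.exp (-(Complex.I * (ξ * y : ℝ)))

/-- The limit variance of the linear statistics of the GOE, in `[0, ∞]`:
`(1 / (2 π²)) ∫ |ξ| |f^ (ξ)|² dξ`. -/
noncomputable def vGOE (f : ℝ → ℝ) : ENNReal :=
  ∫⁻ ξ, ENNReal.ofReal (|ξ| * ‖four f ξ‖ ^ 2 / (2 * Real.pi ^ 2))

/-- The linear statistic `∑_k f (ℓ (λ_k - τ))` of the window of length `1 / ℓ` around `τ`, minus the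
Weyl term `τ / (2 π ℓ) ∫ f`. -/
noncomputable def stat {Γ : Type} [Group Γ] [MulAction Γ Pl] {D : Set Pl} (m : Mt Γ D)
    (f : ℝ → ℝ) (l τ : ℝ) : ℝ :=
  ∑' k, f (l * (FG33.lam m k - τ)) - τ / (2 * Real.pi * l) * ∫ y, f y

/-- The mean of `g` over `[0, T]` with the density `2 (T - τ) / T²` (the second Cesàro mean). -/
noncomputable def tmean (T : ℝ) (g : ℝ → ℝ) : ℝ :=
  2 / T ^ 2 * ∫ τ in (0 : ℝ)..T, (T - τ) * g τ

end FE35
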